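import Mathlib

/-!
# Words, sparse polynomials and tries over the free algebra on four letters
-/

set_option autoImplicit false

namespace Pool.Agent.Q11.EU

/-- a sparse noncommutative polynomial in four letters with integer coefficients -/
abbrev Pl : Type := List (ℤ × List (Fin 4))

/-- tries: sparse polynomials indexed by words -/
inductive Tr : Type
  | nil : Tr
  | node (c : ℤ) (t0 t1 t2 t3 : Tr) : Tr

/-- add `c` times the word `l` to a trie -/
def ins (c : ℤ) : List (Fin 4) → Tr → Tr
  | [], .nil => .node c .nil .nil .nil .nil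
  | [], .node e t0 t1 t2 t3 => .node (e + c) t0 t1 t2 t3
  | 0 :: l, .nil => .node 0 (ins c l .nil) .nil .nil .nil
  | 1 :: l, .nil => .node 0 .nil (ins c l .nil) .nil .nil
  | 2 :: l, .nil => .node 0 .nil .nil (ins c l .nil) .nil
  | 3 :: l, .nil => .node 0 .nil .nil .nil (ins c l .nil)
  | 0 :: l, .node e t0 t1 t2 t3 => .node e (ins c l t0) t1 t2 t3
  | 1 :: l, .node e t0 t1 t2 t3 => .node e t0 (ins c l t1) t2 t3
  | 2 :: l, .node e t0 t1 t2 t3 => .node e t0 t1 (ins c l t2) t3
  | 3 :: l, .node e t0 t1 t2 t3 => .node e t0 t1 t2 (ins c l t3)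

/-- add a whole polynomial to a trie -/
def insAll : Pl → Tr → Tr
  | [], t => t
  | p :: q, t => insAll q (ins p.1 p.2 t)

/-- all coefficients of a trie vanish -/
def isZ : Tr → Bool
  | .nil => true
  | .node c t0 t1 t2 t3 => c == 0 && (isZ t0 && (isZ t1 && (isZ t2 && isZ t3)))

/-- the polynomial `[u, p]` -/
def cmW (u : List (Fin 4)) (p : Pl) : Pl :=
  p.map (fun t => (t.1, u ++ t.2)) ++ p.map (fun t => (-t.1, t.2 ++ u))

/-- the value of the derivation on a word -/
def dW : List (Fin 4) → Pl
  | [] => []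
  | a :: l => (1, 2 :: 3 :: a :: l) :: (-1, 3 :: 2 :: a :: l) ::
      (dW l).map (fun t => (t.1, a :: t.2))

/-- one term of a certificate: the coefficient and the five words -/
structure Ct where
  c : ℤ
  u : List (Fin 4)
  v : List (Fin 4)
  w : List (Fin 4)
  x : List (Fin 4)
  y : List (Fin 4)

/-- the polynomial `c [u, [v, [w, [x, y]]]]` -/
def gen (t : Ct) : Pl := cmW t.u (cmW t.v (cmW t.w (cmW t.x [(t.c, t.y)])))

section eval

variable {R : Type*} [Ring R] [Algebra ℂ R] (g : Fin 4 → R)

/-- the value of a word -/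
def wd (l : List (Fin 4)) : R := (l.map g).prod

/-- the value of a sparse polynomial -/
noncomputable def ev (p : Pl) : R := (p.map fun t => ((t.1 : ℤ) : ℂ) • wd g t.2).sum

/-- the value of a trie -/
noncomputable def evT : Tr → R
  | .nil => 0
  | .node c t0 t1 t2 t3 => ((c : ℤ) : ℂ) • (1 : R) + g 0 * evT t0 + g 1 * evT t1 + g 2 * evT t2 +
      g 3 * evT t3

/-- commutator -/
def cm (a b : R) : R := a * b - b * a

@[simp] theorem wd_nil : wd g [] = 1 := by simp [wd]

@[simp] theorem wd_cons (a : Fin 4) (l : List (Fin 4)) : wd g (a :: l) = g a * wd g l := by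
  simp [wd]

@[simp] theorem wd_append (l m : List (Fin 4)) : wd g (l ++ m) = wd g l * wd g m := by
  simp [wd]

@[simp] theorem ev_nil : ev g [] = 0 := by simp [ev]

@[simp] theorem ev_cons (t : ℤ × List (Fin 4)) (p : Pl) :
    ev g (t :: p) = ((t.1 : ℤ) : ℂ) • wd g t.2 + ev g p := by simp [ev]

@[simp] theorem ev_append (p q : Pl) : ev g (p ++ q) = ev g p + ev g q := by
  simp [ev]

theorem evT_ins (c : ℤ) (l : List (Fin 4)) (t : Tr) :
    evT g (ins c l t) = ((c : ℤ) : ℂ) • wd g l + evT g t := by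
  fun_induction ins c l t <;>
    simp_all [evT, mul_add, add_smul] <;> abel

theorem evT_insAll (p : Pl) (t : Tr) : evT g (insAll p t) = ev g p + evT g t := by
  induction p generalizing t with
  | nil => simp [insAll]
  | cons a q ih => rw [insAll, ih, evT_ins, ev_cons]; abel

theorem evT_of_isZ (t : Tr) (h : isZ t = true) : evT g t = 0 := by
  induction t with
  | nil => rfl
  | node c t0 t1 t2 t3 h0 h1 h2 h3 =>
    simp only [isZ, Bool.and_eq_true, beq_iff_eq] at h
    obtain ⟨rfl, a0, a1, a2, a3⟩ := h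
    simp [evT, h0 a0, h1 a1, h2 a2, h3 a3]

theorem ev_eq_zero (p : Pl) (h : isZ (insAll p .nil) = true) : ev g p = 0 := by
  have h1 := evT_of_isZ g _ h
  rw [evT_insAll] at h1
  simpa [evT] using h1

theorem ev_map_left (u : List (Fin 4)) (p : Pl) :
    ev g (p.map (fun t => (t.1, u ++ t.2))) = wd g u * ev g p := by
  induction p with
  | nil => simp
  | cons a q ih => rw [List.map_cons, ev_cons, ev_cons, ih, mul_add]; simp

theorem ev_map_right (u : List (Fin 4)) (p : Pl) :
    ev g (p.map (fun t => (-t.1, t.2 ++ u))) = -(ev g p * wd g u) := by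
  induction p with
  | nil => simp
  | cons a q ih =>
    rw [List.map_cons, ev_cons, ev_cons, ih, add_mul]
    simp
    abel

theorem ev_cmW (u : List (Fin 4)) (p : Pl) : ev g (cmW u p) = cm (wd g u) (ev g p) := by
  rw [cmW, ev_append, ev_map_left, ev_map_right, cm, sub_eq_add_neg]

theorem ev_gen (t : Ct) : ev g (gen t) = cm (wd g t.u) (cm (wd g t.v) (cm (wd g t.w)
    (cm (wd g t.x) (((t.c : ℤ) : ℂ) • wd g t.y)))) := by
  simp [gen, ev_cmW]

end eval

end Pool.Agent.Q11.EU
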