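import Pool.Agent.Q11.EU.Base

/-!
# The certificate: twice the image of the element is a combination of commutators of five entries
-/

set_option autoImplicit false

namespace Pool.Agent.Q11.EU

/-- the certificate, found by computer -/
def cert : List Ct := [
  ⟨38,[1],[0,1,0],[0],[2],[3]⟩,
  ⟨-4,[0],[0,1],[1,0],[2],[3]⟩,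
  ⟨21,[1,0],[0,0],[1],[2],[3]⟩,
  ⟨-16,[0],[1,0],[0,1],[2],[3]⟩,
  ⟨-17,[0],[1,0],[0],[1],[2,3]⟩,
  ⟨64,[0],[1,0],[1],[0],[3,2]⟩,
  ⟨-3,[0],[0,1],[0],[1],[3,2]⟩,
  ⟨2,[1],[0],[0,1],[0],[3,2]⟩,
  ⟨6,[1],[0],[3,2,0],[0],[1]⟩,
  ⟨12,[0],[1],[0,0],[1],[3,2]⟩,
  ⟨-38,[0],[0,0,1],[1],[2],[3]⟩,
  ⟨-30,[1],[0],[3,2],[0],[0,1]⟩,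
  ⟨-1,[1,0,0],[0],[1],[2],[3]⟩,
  ⟨-34,[1],[0],[0,1,0],[2],[3]⟩,
  ⟨-2,[1],[0],[1,0],[0],[2,3]⟩,
  ⟨30,[0,0],[0,1],[1],[2],[3]⟩,
  ⟨28,[0],[1],[0,0,1],[2],[3]⟩,
  ⟨-17,[0],[0,1],[0],[1],[2,3]⟩,
  ⟨-3,[0],[1,0],[0],[1],[3,2]⟩,
  ⟨18,[0],[1],[0],[1],[2,3,0]⟩,
  ⟨-30,[1,0,0],[1],[0],[2],[3]⟩,
  ⟨-12,[0],[0,1,1],[0],[2],[3]⟩,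
  ⟨2,[0],[1],[2,3,0],[0],[1]⟩,
  ⟨-10,[0],[1],[1,0,0],[2],[3]⟩,
  ⟨14,[0,0,1],[1],[0],[2],[3]⟩,
  ⟨22,[1],[0],[1,0],[0],[3,2]⟩,
  ⟨34,[0,0],[1],[0],[1],[2,3]⟩,
  ⟨1,[0,1],[0,0],[1],[2],[3]⟩,
  ⟨-62,[0],[1,0],[1],[0],[2,3]⟩,
  ⟨-1,[0,0,1],[0],[1],[2],[3]⟩,
  ⟨-6,[0],[1],[0],[0,1],[2,3]⟩,
  ⟨26,[0],[1],[0],[1,0],[3,2]⟩,
  ⟨-48,[0],[1],[1,0],[0],[3,2]⟩,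
  ⟨40,[0],[1],[2,3],[0],[1,0]⟩,
  ⟨-10,[1],[0],[2,3,0],[0],[1]⟩,
  ⟨-6,[0],[1],[0,0],[1],[2,3]⟩,
  ⟨-2,[1],[0],[0,1],[0],[2,3]⟩,
  ⟨30,[1],[0],[2,3],[0],[0,1]⟩,
  ⟨8,[0],[1],[0,1],[0],[3,2]⟩,
  ⟨-14,[0,0],[1],[0,1],[2],[3]⟩,
  ⟨-6,[0],[1],[1],[0],[3,2,0]⟩,
  ⟨-10,[0],[0,1],[1],[0],[3,2]⟩,
  ⟨44,[1,0],[0],[0],[1],[2,3]⟩,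
  ⟨-34,[0,1],[1],[0,0],[2],[3]⟩,
  ⟨24,[1,0],[0],[1,0],[2],[3]⟩,
  ⟨-8,[1,0],[1],[0,0],[2],[3]⟩,
  ⟨-8,[0,0],[1],[2,3],[0],[1]⟩,
  ⟨-12,[0],[1],[3,2,0],[0],[1]⟩,
  ⟨-28,[1],[0],[0,0],[1],[2,3]⟩,
  ⟨26,[0,1,0],[1],[0],[2],[3]⟩,
  ⟨-16,[1],[0],[2,3],[0],[1,0]⟩,
  ⟨24,[0],[1,0,1],[0],[2],[3]⟩,
  ⟨-4,[0,1],[0],[1],[0],[2,3]⟩,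
  ⟨8,[0,1],[1],[0],[0],[2,3]⟩,
  ⟨20,[0,1],[0,1],[0],[2],[3]⟩,
  ⟨8,[0],[1,0],[2],[0,1],[3]⟩,
  ⟨4,[1],[3,2,0],[0],[0],[1]⟩,
  ⟨-4,[0],[3,2,1],[0],[0],[1]⟩,
  ⟨12,[0],[0,1],[3],[1,0],[2]⟩,
  ⟨8,[1],[1,0],[0,0],[2],[3]⟩,
  ⟨-12,[1],[0],[3],[0,1,0],[2]⟩,
  ⟨-10,[1,0],[0,0],[2],[1],[3]⟩,
  ⟨-2,[0,1],[0,0],[3],[1],[2]⟩,
  ⟨-8,[0],[0,0,1],[3],[1],[2]⟩,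
  ⟨-16,[1],[0,1,0],[2],[0],[3]⟩,
  ⟨16,[0],[1],[0,1],[0,2],[3]⟩,
  ⟨-8,[0],[1],[0,0],[2,1],[3]⟩,
  ⟨20,[0],[0,1],[0],[2],[3,1]⟩,
  ⟨-24,[0],[0,1],[1],[2],[3,0]⟩,
  ⟨-12,[0,0],[1],[0],[1,3],[2]⟩,
  ⟨-4,[0],[1],[2],[1,0,0],[3]⟩,
  ⟨-12,[0],[1],[3],[0,0,1],[2]⟩,
  ⟨-4,[1],[0],[1,0],[0,2],[3]⟩,
  ⟨4,[0,0],[0,1],[2],[1],[3]⟩,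
  ⟨-12,[0,1],[3],[2],[0],[0,1]⟩,
  ⟨-12,[1],[0],[1,0],[2,0],[3]⟩,
  ⟨4,[0,1],[0],[1],[0,2],[3]⟩,
  ⟨12,[1,0],[0],[3],[1,0],[2]⟩,
  ⟨-16,[0],[1],[0],[1,0,3],[2]⟩,
  ⟨-24,[0],[1,0],[1],[2],[3,0]⟩,
  ⟨-28,[0],[1],[0],[1,2],[3,0]⟩,
  ⟨24,[1,0,1],[0],[3],[0],[2]⟩,
  ⟨-4,[0],[2],[3],[0],[0,1,1]⟩,
  ⟨-28,[0],[1,0],[1],[0,3],[2]⟩,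
  ⟨-10,[0,0],[1],[0],[1,2],[3]⟩,
  ⟨-24,[1,0],[0],[1],[2,0],[3]⟩,
  ⟨-24,[0],[0,1,1],[3],[0],[2]⟩,
  ⟨16,[1,0],[1],[0],[0,2],[3]⟩,
  ⟨20,[0,1],[0],[1],[2,0],[3]⟩,
  ⟨-2,[1],[0],[0,0],[1,2],[3]⟩,
  ⟨-4,[0],[0,0],[1],[2],[3,1]⟩,
  ⟨-16,[0],[1,0],[2],[1,0],[3]⟩,
  ⟨-8,[1,1,0],[0],[2],[0],[3]⟩,
  ⟨-4,[1],[0,0],[2],[0,1],[3]⟩,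
  ⟨-8,[0,1],[1],[0],[2,0],[3]⟩,
  ⟨-4,[0],[1,1],[0],[2,0],[3]⟩,
  ⟨-4,[0],[1],[1],[0,2],[3,0]⟩,
  ⟨2,[0],[0],[1],[2,0,1],[3]⟩,
  ⟨-4,[0],[0,0],[1],[2,1],[3]⟩,
  ⟨14,[0],[1],[0,0],[1,2],[3]⟩,
  ⟨-12,[0,1],[1],[0],[0,2],[3]⟩,
  ⟨24,[0],[0,1],[1],[2,0],[3]⟩,
  ⟨4,[0],[1],[0],[1,0,2],[3]⟩,
  ⟨-8,[0],[0,1],[0],[2,1],[3]⟩,
  ⟨-16,[0],[0,1],[2],[0],[3,1]⟩,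
  ⟨-12,[0,1],[0],[2],[0,1],[3]⟩,
  ⟨-4,[1],[0],[0],[2,0,1],[3]⟩,
  ⟨2,[1,0],[0],[0],[2,1],[3]⟩,
  ⟨-12,[1],[0],[3],[1,0],[2,0]⟩,
  ⟨-8,[1],[0],[0,1],[2],[3,0]⟩,
  ⟨-24,[1],[0],[0,1,3],[0],[2]⟩,
  ⟨-16,[0],[0,1],[2,0],[1],[3]⟩,
  ⟨24,[0],[1],[1,0],[0,2],[3]⟩,
  ⟨4,[1],[0],[0],[0,3],[2,1]⟩,
  ⟨-10,[0],[0],[1],[2,1,0],[3]⟩,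
  ⟨16,[1],[0],[3],[0],[2,0,1]⟩,
  ⟨-2,[0,1],[0],[0],[2,1],[3]⟩,
  ⟨-8,[1,0],[1],[0],[0,3],[2]⟩,
  ⟨2,[0,0],[1],[3],[1,0],[2]⟩,
  ⟨8,[1],[0],[0],[1,2],[3,0]⟩,
  ⟨16,[0],[1,1,0],[3],[0],[2]⟩,
  ⟨-8,[1],[3],[2,0],[0],[1,0]⟩,
  ⟨8,[1,0],[0,1],[2],[0],[3]⟩,
  ⟨4,[1,0],[3],[2],[0],[0,1]⟩,
  ⟨-4,[1],[0],[2],[1,0],[3,0]⟩,
  ⟨4,[1,0],[1],[3,0],[0],[2]⟩,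
  ⟨-4,[0],[1],[0,2],[0,1],[3]⟩,
  ⟨4,[0],[3,0,1],[2],[0],[1]⟩,
  ⟨-8,[0],[1],[1,0,2],[0],[3]⟩,
  ⟨8,[1,0,0],[2],[0],[1],[3]⟩,
  ⟨4,[0],[1],[3,0],[1,0],[2]⟩,
  ⟨8,[0],[3],[2,0,1],[0],[1]⟩,
  ⟨-12,[0],[1],[1,3],[0],[2,0]⟩,
  ⟨-8,[1],[1,0],[0],[0,2],[3]⟩,
  ⟨2,[0,0],[1],[2,0],[1],[3]⟩,
  ⟨-4,[0],[2,1],[3],[0,0],[1]⟩,
  ⟨8,[1,0,0],[3],[0],[1],[2]⟩,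
  ⟨-4,[0],[3],[2,1,0],[0],[1]⟩,
  ⟨-8,[1],[0,3],[2],[0],[1,0]⟩,
  ⟨16,[1],[0],[2],[0,0,1],[3]⟩,
  ⟨4,[0],[3,1],[2],[0],[1,0]⟩,
  ⟨4,[0],[3],[2,0],[0],[1,1]⟩,
  ⟨4,[1],[0],[0],[0,2],[3,1]⟩,
  ⟨2,[0,0],[1],[2],[0],[3,1]⟩,
  ⟨24,[0],[1],[3],[0,1],[2,0]⟩,
  ⟨8,[0],[3],[2,1],[0],[0,1]⟩,
  ⟨-4,[0,1],[1],[3,0],[0],[2]⟩,
  ⟨4,[0],[1,2],[3],[0],[0,1]⟩,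
  ⟨16,[0,1],[0],[0,2],[1],[3]⟩,
  ⟨4,[1,0],[3,0],[2],[0],[1]⟩,
  ⟨4,[0,0],[1],[1],[0,3],[2]⟩,
  ⟨-4,[0],[2],[3,1],[0,0],[1]⟩,
  ⟨4,[0],[1],[3],[0],[2,1,0]⟩,
  ⟨4,[1],[0],[1],[0,2],[3,0]⟩,
  ⟨-4,[0],[0,1],[3],[0],[2,1]⟩,
  ⟨4,[0],[3,1,0],[2],[0],[1]⟩,
  ⟨4,[0,1],[0,2],[3],[0],[1]⟩,
  ⟨-8,[0],[3],[2,0],[1,0],[1]⟩,
  ⟨-12,[0,1],[0],[0],[2],[3,1]⟩,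
  ⟨16,[0,1],[0],[3],[1],[2,0]⟩,
  ⟨-4,[0],[1,0],[0,2],[1],[3]⟩,
  ⟨4,[1],[0],[2],[0,1],[0,3]⟩,
  ⟨8,[1],[0,3],[2],[0,0],[1]⟩,
  ⟨12,[1],[0],[1,3],[0],[2,0]⟩,
  ⟨24,[0],[1],[2],[0],[3,0,1]⟩,
  ⟨4,[0],[0,3],[2,1],[0],[1]⟩,
  ⟨4,[3],[2,0,1],[0],[0],[1]⟩,
  ⟨8,[0,1],[2,0],[3],[0],[1]⟩,
  ⟨-4,[3],[2,0,0],[1],[0],[1]⟩,
  ⟨-4,[2,0],[1,3],[0],[0],[1]⟩,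
  ⟨4,[0,3],[2,0],[1],[0],[1]⟩]

/-- the element -/
def fP : Pl := [(1, [0,0,1,0,1]), (-1, [0,0,1,1,0]), (-1, [0,1,0,0,1]), (1, [0,1,1,0,0]),
  (1, [1,0,0,1,0]), (-1, [1,0,1,0,0])]

/-- `-c` times the image of a word under the derivation -/
def negD (t : ℤ × List (Fin 4)) : Pl := (dW t.2).map (fun s => (-(2 * (t.1 * s.1)), s.2))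

theorem check : isZ (insAll (cert.flatMap gen ++ fP.flatMap negD) .nil) = true := by
  decide +kernel

end Pool.Agent.Q11.EU
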