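import Mathlib

/-!
# A functional on the words of length 5 in two letters which vanishes on 5-fold commutators
-/

set_option autoImplicit false

namespace Pool.Agent.Q11.EU

/-- the functional: `+1` at `aabab`, `-1` at `babaa` -/
def phi (l : List (Fin 2)) : ℤ :=
  if l = [0, 0, 1, 0, 1] then 1 else if l = [1, 0, 1, 0, 0] then -1 else 0

/-- the transposed commutator with a word -/
def br (F : List (Fin 2) → ℤ) (u : List (Fin 2)) : List (Fin 2) → ℤ :=
  fun w => F (u ++ w) - F (w ++ u)

theorem phi_of_ne {l : List (Fin 2)} (h : l.length ≠ 5) : phi l = 0 := by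
  rw [phi, if_neg, if_neg]
  · rintro rfl; simp at h
  · rintro rfl; simp at h

theorem phi_single (a b c d e : Fin 2) : br (br (br (br phi [a]) [b]) [c]) [d] [e] = 0 := by
  revert a b c d e
  decide +kernel

theorem br_nil (F : List (Fin 2) → ℤ) : br F [] = fun _ => 0 := by
  funext w; simp [br]

theorem br_zero (u : List (Fin 2)) : br (fun _ => 0) u = fun _ => 0 := by
  funext w; simp [br]

theorem br5 (u v w x y : List (Fin 2)) : br (br (br (br phi u) v) w) x y = 0 := by
  by_cases hl : u.length + v.length + w.length + x.length + y.length = 5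
  · by_cases hu : u.length = 0
    · obtain rfl := List.length_eq_zero_iff.1 hu
      simp [br_nil, br_zero]
    by_cases hv : v.length = 0
    · obtain rfl := List.length_eq_zero_iff.1 hv
      simp [br_nil, br_zero]
    by_cases hw : w.length = 0
    · obtain rfl := List.length_eq_zero_iff.1 hw
      simp [br_nil, br_zero]
    by_cases hx : x.length = 0
    · obtain rfl := List.length_eq_zero_iff.1 hx
      simp [br_nil]
    by_cases hy : y.length = 0
    · obtain rfl := List.length_eq_zero_iff.1 hy
      rw [br]; simp
    obtain ⟨a, rfl⟩ := List.length_eq_one_iff.1 (show u.length = 1 by omega)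
    obtain ⟨b, rfl⟩ := List.length_eq_one_iff.1 (show v.length = 1 by omega)
    obtain ⟨c, rfl⟩ := List.length_eq_one_iff.1 (show w.length = 1 by omega)
    obtain ⟨d, rfl⟩ := List.length_eq_one_iff.1 (show x.length = 1 by omega)
    obtain ⟨e, rfl⟩ := List.length_eq_one_iff.1 (show y.length = 1 by omega)
    exact phi_single a b c d e
  · simp only [br]
    repeat rw [phi_of_ne (by simp; omega)]
    simp

end Pool.Agent.Q11.EU
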